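import Mathlib

/-!
# The example for multisections of higher degree

Pure algebra in one variable over `ℚ`: a quadratic form of the shape `A₀ X² + D₀ Y²` whose
discriminant is `G H²` with `G` of degree `4`, such that the deformations considered have
a trivial kernel.
-/

namespace Pool.Agent.Helper23.RK

open Polynomial

noncomputable section

theorem degree_sum_lt (u : ℕ → ℚ) (n : ℕ) :
    (∑ i ∈ Finset.range n, C (u i) * X ^ i).degree < (n : WithBot ℕ) := by
  rw [Finset.sum_range]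
  exact degree_sum_fin_lt fun i : Fin n => u i

theorem coeff_sum_lt (u : ℕ → ℚ) (n i : ℕ) (hi : i < n) :
    (∑ i ∈ Finset.range n, C (u i) * X ^ i).coeff i = u i := by
  rw [finsetSum_coeff, Finset.sum_eq_single i]
  · simp
  · intro j _ hj
    simp [coeff_X_pow, hj.symm]
  · intro hh
    exact absurd (Finset.mem_range.2 hi) hh

/-- The abstract kernel computation. -/
theorem kernel_abs {β γ G₁ G₂ : ℚ[X]} {db dg : ℕ} (hβ : β.Monic) (hγ : γ.Monic)
    (hdb : β.natDegree = db) (hdg : γ.natDegree = dg) (h1 : IsCoprime β γ)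
    (h2 : IsCoprime β (G₁ * G₂)) (h3 : IsCoprime γ (G₁ * G₂))
    (u v : ℕ → ℚ) (dG dH : ℚ[X]) (hH : dH.degree < (db + dg : ℕ))
    (h : G₂ * γ ^ 2 * (∑ i ∈ Finset.range db, C (u i) * X ^ i) -
      4 * (∑ i ∈ Finset.range dg, C (v i) * (X ^ i * (G₁ * β ^ 2) + (-C (1 / 4) * G₂ * γ ^ 2) * β)) =
      (β * γ) * (dG * (β * γ) + 2 * (G₁ * G₂) * dH)) :
    (∀ i < db, u i = 0) ∧ (∀ i < dg, v i = 0) ∧ dG = 0 ∧ dH = 0 := by
  have hβ0 : β ≠ 0 := hβ.ne_zero
  have hγ0 : γ ≠ 0 := hγ.ne_zero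
  have hG2 : IsCoprime β G₂ := h2.of_mul_right_right
  have hG3 : IsCoprime γ G₁ := h3.of_mul_right_left
  set U : ℚ[X] := ∑ i ∈ Finset.range db, C (u i) * X ^ i with hU
  set V : ℚ[X] := ∑ i ∈ Finset.range dg, C (v i) * X ^ i with hV
  set w : ℚ[X] := ∑ i ∈ Finset.range dg, C (v i) with hw
  have hsum : (∑ i ∈ Finset.range dg,
      C (v i) * (X ^ i * (G₁ * β ^ 2) + (-C (1 / 4) * G₂ * γ ^ 2) * β)) =
      V * (G₁ * β ^ 2) + w * ((-C (1 / 4) * G₂ * γ ^ 2) * β) := by
    rw [hV, hw, Finset.sum_mul, Finset.sum_mul, ← Finset.sum_add_distrib]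
    exact Finset.sum_congr rfl fun i _ => by ring
  rw [hsum] at h
  have hUdeg : U.degree < (db : WithBot ℕ) := degree_sum_lt u db
  have hVdeg : V.degree < (dg : WithBot ℕ) := degree_sum_lt v dg
  have hU0 : U = 0 := by
    have hd : β ∣ (G₂ * γ ^ 2) * U := by
      have : (G₂ * γ ^ 2) * U = β * (γ * (dG * (β * γ) + 2 * (G₁ * G₂) * dH) +
          4 * (V * (G₁ * β) + w * (-C (1 / 4) * G₂ * γ ^ 2))) := by
        linear_combination h
      exact ⟨_, this⟩
    have hc : IsCoprime β (G₂ * γ ^ 2) := IsCoprime.mul_right hG2 (h1.pow_right)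
    have := hc.dvd_of_dvd_mul_left hd
    by_contra hne
    have h4 := degree_le_of_dvd this hne
    rw [degree_eq_natDegree hβ0, hdb] at h4
    exact absurd (h4.trans_lt hUdeg) (lt_irrefl _)
  rw [hU0, mul_zero, zero_sub] at h
  have hC4 : (C 4 : ℚ[X]) = 4 := map_ofNat C 4
  have hC2 : (C 2 : ℚ[X]) = 2 := map_ofNat C 2
  have hV0 : V = 0 := by
    have hd : γ ∣ (C 4 * (G₁ * β ^ 2)) * V := by
      have : (C 4 * (G₁ * β ^ 2)) * V = γ * (-(β * (dG * (β * γ) + 2 * (G₁ * G₂) * dH)) +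
          4 * (w * (C (1 / 4) * G₂ * γ * β))) := by
        rw [hC4]
        linear_combination -h
      exact ⟨_, this⟩
    have hc : IsCoprime γ (C 4 * (G₁ * β ^ 2)) := by
      refine IsCoprime.mul_right ?_ (IsCoprime.mul_right hG3 (h1.symm.pow_right))
      refine ⟨0, C (1 / 4), ?_⟩
      rw [zero_mul, zero_add, ← C_mul]
      norm_num
    have := hc.dvd_of_dvd_mul_left hd
    by_contra hne
    have h4 := degree_le_of_dvd this hne
    rw [degree_eq_natDegree hγ0, hdg] at h4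
    exact absurd (h4.trans_lt hVdeg) (lt_irrefl _)
  have hu : ∀ i < db, u i = 0 := by
    intro i hi
    rw [← coeff_sum_lt u db i hi, ← hU, hU0, coeff_zero]
  have hv : ∀ i < dg, v i = 0 := by
    intro i hi
    rw [← coeff_sum_lt v dg i hi, ← hV, hV0, coeff_zero]
  have hw0 : w = 0 := by
    rw [hw]
    exact Finset.sum_eq_zero fun i hi => by rw [hv i (Finset.mem_range.1 hi), C_0]
  rw [hV0, hw0, zero_mul, zero_mul, add_zero, mul_zero, neg_zero] at h
  have hHne : β * γ ≠ 0 := mul_ne_zero hβ0 hγ0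
  have h5 : dG * (β * γ) + 2 * (G₁ * G₂) * dH = 0 := by
    rcases mul_eq_zero.1 h.symm with h6 | h6
    · exact absurd h6 hHne
    · exact h6
  have hdH : dH = 0 := by
    by_contra hne
    have hd : β * γ ∣ (C 2 * (G₁ * G₂)) * dH := by
      refine ⟨-dG, ?_⟩
      rw [hC2]
      linear_combination h5
    have hc : IsCoprime (β * γ) (C 2 * (G₁ * G₂)) := by
      refine IsCoprime.mul_right ?_ (IsCoprime.mul_left h2 h3)
      refine ⟨0, C (1 / 2), ?_⟩
      rw [zero_mul, zero_add, ← C_mul]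
      norm_num
    have h6 := degree_le_of_dvd (hc.dvd_of_dvd_mul_left hd) hne
    rw [degree_eq_natDegree hHne, hβ.natDegree_mul hγ, hdb, hdg] at h6
    exact absurd (h6.trans_lt hH) (lt_irrefl _)
  refine ⟨hu, hv, ?_, hdH⟩
  rw [hdH, mul_zero, add_zero] at h5
  exact (mul_eq_zero.1 h5).resolve_right hHne

/-- Monic products of linear factors. -/
def P (s : ℕ) (f : ℕ → ℚ) : ℚ[X] := ∏ k ∈ Finset.range s, (X - C (f k))

theorem P_monic (s : ℕ) (f : ℕ → ℚ) : (P s f).Monic := monic_prod_X_sub_C f _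

theorem P_natDegree (s : ℕ) (f : ℕ → ℚ) : (P s f).natDegree = s := by
  rw [P, natDegree_finsetProd_X_sub_C_eq_card, Finset.card_range]

theorem P_eval (s : ℕ) (f : ℕ → ℚ) (x : ℚ) (h : ∀ k < s, x ≠ f k) : (P s f).eval x ≠ 0 := by
  rw [P, eval_prod]
  refine Finset.prod_ne_zero_iff.2 fun k hk => ?_
  rw [eval_sub, eval_X, eval_C]
  exact sub_ne_zero.2 (h k (Finset.mem_range.1 hk))

theorem P_coprime (s t : ℕ) (f g : ℕ → ℚ) (h : ∀ k < s, ∀ j < t, f k ≠ g j) :
    IsCoprime (P s f) (P t g) := by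
  refine IsCoprime.prod_left fun k hk => IsCoprime.prod_right fun j hj => ?_
  exact isCoprime_X_sub_C_of_isUnit_sub
    (isUnit_iff_ne_zero.2 (sub_ne_zero.2 (h k (Finset.mem_range.1 hk) j (Finset.mem_range.1 hj))))

theorem P_succ (s : ℕ) (f : ℕ → ℚ) : P (s + 1) f = P s (fun k => f (k + 1)) * (X - C (f 0)) := by
  rw [P, Finset.prod_range_succ', P]

/-- The example. -/
theorem exists_ex (n : ℕ) (hn : 1 ≤ n) : ∃ (A0 D0 G H : Polynomial ℚ) (A D : Fin n → Polynomial ℚ) (t0 : ℚ),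
    A0.natDegree ≤ n + 2 ∧ D0.natDegree ≤ n + 2 ∧ (∀ i, (A i).natDegree ≤ n + 2) ∧ (∀ i, (D i).natDegree ≤ n + 2) ∧
    -4 * A0 * D0 = G * H ^ 2 ∧ H.Monic ∧ H.natDegree = n ∧ G.natDegree ≤ 4 ∧
    G.eval t0 = 0 ∧ G.derivative.eval t0 ≠ 0 ∧ A0.coeff 0 ≠ 0 ∧ A0.eval t0 ≠ 0 ∧
    (∀ i, (A i * D0 + A0 * D i).eval t0 ≠ 0) ∧
    ∀ (dc : Fin n → ℚ) (dG dH : Polynomial ℚ) (dt : ℚ), dG.natDegree ≤ 4 → dH.degree < n →
      -4 * ∑ i, Polynomial.C (dc i) * (A i * D0 + A0 * D i) = H * (dG * H + 2 * G * dH) →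
      dG.eval t0 + G.derivative.eval t0 * dt = 0 → dc = 0 ∧ dG = 0 ∧ dH = 0 ∧ dt = 0 := by
  obtain ⟨p, q, s, hp1, hpq, hs, hqs, hs1⟩ : ∃ p q s : ℕ, 1 ≤ p ∧ p + q = n ∧ s + 1 + 2 * p = n + 2 ∧
      3 - s + 2 * q = n + 2 ∧ s ≤ 1 := by
    refine ⟨(n + 1) / 2, n / 2, 1 - n % 2, ?_, ?_, ?_, ?_, ?_⟩ <;> omega
  set β : ℚ[X] := P p (fun k => (k : ℚ) + 1) with hβ
  set γ : ℚ[X] := P q (fun k => -((k : ℚ) + 1)) with hγ
  set G₁ : ℚ[X] := P (s + 1) (fun j => (n : ℚ) + 1 + j) with hG₁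
  set G₂ : ℚ[X] := P (3 - s) (fun j => -((n : ℚ) + 1 + j)) with hG₂
  have hβm : β.Monic := P_monic _ _
  have hγm : γ.Monic := P_monic _ _
  have hG₁m : G₁.Monic := P_monic _ _
  have hG₂m : G₂.Monic := P_monic _ _
  have hβd : β.natDegree = p := P_natDegree _ _
  have hγd : γ.natDegree = q := P_natDegree _ _
  have hG₁d : G₁.natDegree = s + 1 := P_natDegree _ _
  have hG₂d : G₂.natDegree = 3 - s := P_natDegree _ _
  have hpn : (p : ℚ) ≤ n := by exact_mod_cast (by omega : p ≤ n)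
  have hqn : (q : ℚ) ≤ n := by exact_mod_cast (by omega : q ≤ n)
  have hn0 : (0 : ℚ) ≤ n := Nat.cast_nonneg n
  have c1 : IsCoprime β γ := by
    refine P_coprime _ _ _ _ fun k _ j _ hkj => ?_
    have := Nat.cast_nonneg (α := ℚ) k
    have := Nat.cast_nonneg (α := ℚ) j
    linarith
  have c2 : IsCoprime β (G₁ * G₂) := by
    refine IsCoprime.mul_right (P_coprime _ _ _ _ fun k hk j _ hkj => ?_)
      (P_coprime _ _ _ _ fun k _ j _ hkj => ?_)
    · have h1 : (k : ℚ) + 1 ≤ p := by exact_mod_cast hk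
      have := Nat.cast_nonneg (α := ℚ) j
      linarith
    · have := Nat.cast_nonneg (α := ℚ) k
      have := Nat.cast_nonneg (α := ℚ) j
      linarith
  have c3 : IsCoprime γ (G₁ * G₂) := by
    refine IsCoprime.mul_right (P_coprime _ _ _ _ fun k _ j _ hkj => ?_)
      (P_coprime _ _ _ _ fun k hk j _ hkj => ?_)
    · have := Nat.cast_nonneg (α := ℚ) k
      have := Nat.cast_nonneg (α := ℚ) j
      linarith
    · have h1 : (k : ℚ) + 1 ≤ q := by exact_mod_cast hk
      have := Nat.cast_nonneg (α := ℚ) j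
      linarith
  have eβ : β.eval ((n : ℚ) + 1) ≠ 0 := by
    refine P_eval _ _ _ fun k hk hkj => ?_
    have h1 : (k : ℚ) + 1 ≤ p := by exact_mod_cast hk
    linarith
  have eγ : γ.eval ((n : ℚ) + 1) ≠ 0 := by
    refine P_eval _ _ _ fun k hk hkj => ?_
    have := Nat.cast_nonneg (α := ℚ) k
    linarith
  have eG₂ : G₂.eval ((n : ℚ) + 1) ≠ 0 := by
    refine P_eval _ _ _ fun k hk hkj => ?_
    have := Nat.cast_nonneg (α := ℚ) k
    linarith
  have eγ0 : γ.eval 0 ≠ 0 := by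
    refine P_eval _ _ _ fun k hk hkj => ?_
    have := Nat.cast_nonneg (α := ℚ) k
    linarith
  have eG₂0 : G₂.eval 0 ≠ 0 := by
    refine P_eval _ _ _ fun k hk hkj => ?_
    have := Nat.cast_nonneg (α := ℚ) k
    linarith
  set R : ℚ[X] := P s (fun k => (n : ℚ) + 1 + ((k + 1 : ℕ) : ℚ)) with hR
  have hG₁R : G₁ = R * (X - C ((n : ℚ) + 1)) := by
    rw [hG₁, P_succ, hR]
    simp
  have eR : R.eval ((n : ℚ) + 1) ≠ 0 := by
    refine P_eval _ _ _ fun k hk hkj => ?_
    have := Nat.cast_nonneg (α := ℚ) k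
    push_cast at hkj
    linarith
  have eG₁ : G₁.eval ((n : ℚ) + 1) = 0 := by
    rw [hG₁R, eval_mul, eval_sub, eval_X, eval_C, sub_self, mul_zero]
  set A0 : ℚ[X] := -C (1 / 4) * G₂ * γ ^ 2 with hA0
  set D0 : ℚ[X] := G₁ * β ^ 2 with hD0
  have eA0 : A0.eval ((n : ℚ) + 1) ≠ 0 := by
    rw [hA0, eval_mul, eval_mul, eval_neg, eval_C, eval_pow]
    exact mul_ne_zero (mul_ne_zero (by norm_num) eG₂) (pow_ne_zero _ eγ)
  have eD0 : D0.eval ((n : ℚ) + 1) = 0 := by
    rw [hD0, eval_mul, eG₁, zero_mul]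
  have hA0d : A0.natDegree ≤ n + 2 := by
    rw [hA0]
    refine natDegree_mul_le.trans ?_
    have h1 : (-C (1 / 4) * G₂ : ℚ[X]).natDegree ≤ 3 - s := by
      refine natDegree_mul_le.trans ?_
      rw [natDegree_neg, natDegree_C, hG₂d, zero_add]
    have h2 : (γ ^ 2).natDegree ≤ 2 * q := by
      refine natDegree_pow_le.trans ?_
      rw [hγd]
    omega
  have hD0d : D0.natDegree ≤ n + 2 := by
    rw [hD0]
    refine natDegree_mul_le.trans ?_
    have h2 : (β ^ 2).natDegree ≤ 2 * p := by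
      refine natDegree_pow_le.trans ?_
      rw [hβd]
    omega
  have hC4 : (C (1 / 4) * 4 : ℚ[X]) = 1 := by
    have : (4 : ℚ[X]) = C 4 := (map_ofNat C 4).symm
    rw [this, ← C_mul]
    norm_num
  refine ⟨A0, D0, G₁ * G₂, β * γ, fun i => if (i : ℕ) < p then 0 else X ^ ((i : ℕ) - p),
    fun i => if (i : ℕ) < p then X ^ (i : ℕ) else β, (n : ℚ) + 1, hA0d, hD0d, ?_, ?_, ?_,
    hβm.mul hγm, ?_, ?_, ?_, ?_, ?_, eA0, ?_, ?_⟩
  · intro i
    dsimp only
    split_ifs
    · simp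
    · rw [natDegree_X_pow]
      omega
  · intro i
    dsimp only
    split_ifs
    · rw [natDegree_X_pow]
      omega
    · rw [hβd]
      omega
  · rw [hA0, hD0]
    linear_combination (G₁ * G₂ * (β * γ) ^ 2) * hC4
  · rw [hβm.natDegree_mul hγm, hβd, hγd, hpq]
  · rw [hG₁m.natDegree_mul hG₂m, hG₁d, hG₂d]
    omega
  · rw [eval_mul, eG₁, zero_mul]
  · rw [hG₁R, derivative_mul, derivative_mul, derivative_sub, derivative_X, derivative_C]
    simp only [eval_add, eval_mul, eval_sub, eval_X, eval_C, sub_self, mul_zero, zero_mul,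
      zero_add, add_zero, sub_zero, mul_one]
    exact mul_ne_zero eR eG₂
  · rw [coeff_zero_eq_eval_zero, hA0, eval_mul, eval_mul, eval_neg, eval_C, eval_pow]
    exact mul_ne_zero (mul_ne_zero (by norm_num) eG₂0) (pow_ne_zero _ eγ0)
  · intro i
    dsimp only
    split_ifs
    · rw [zero_mul, zero_add, eval_mul, eval_pow, eval_X]
      exact mul_ne_zero eA0 (pow_ne_zero _ (by positivity))
    · rw [eval_add, eval_mul, eD0, mul_zero, zero_add, eval_mul]
      exact mul_ne_zero eA0 eβ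
  · intro dc dG dH dt _ hdH h hdt
    set v : ℕ → ℚ := fun k => if hk : k < n then dc ⟨k, hk⟩ else 0 with hv
    have hvi : ∀ i : Fin n, dc i = v i := by
      intro i
      rw [hv]
      simp
    set F : ℕ → ℚ[X] := fun k => C (v k) * ((if k < p then 0 else X ^ (k - p)) * D0 +
      A0 * (if k < p then X ^ k else β)) with hF
    have hsum : (∑ i : Fin n, C (dc i) * ((if (i : ℕ) < p then 0 else X ^ ((i : ℕ) - p)) * D0 +
        A0 * (if (i : ℕ) < p then X ^ (i : ℕ) else β))) =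
        (∑ i ∈ Finset.range p, C (v i) * X ^ i) * A0 +
        ∑ i ∈ Finset.range q, C (v (p + i)) * (X ^ i * D0 + A0 * β) := by
      have e1 : (∑ i : Fin n, C (dc i) * ((if (i : ℕ) < p then 0 else X ^ ((i : ℕ) - p)) * D0 +
        A0 * (if (i : ℕ) < p then X ^ (i : ℕ) else β))) = ∑ i ∈ Finset.range n, F i := by
        rw [Finset.sum_range]
        exact Finset.sum_congr rfl fun i _ => by rw [hvi i]
      rw [e1, ← hpq, Finset.sum_range_add, Finset.sum_mul]
      congr 1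
      · refine Finset.sum_congr rfl fun i hi => ?_
        have hi' : i < p := Finset.mem_range.1 hi
        rw [hF]
        simp only [hi', if_true]
        ring
      · refine Finset.sum_congr rfl fun i hi => ?_
        have hi' : ¬ (p + i < p) := by omega
        rw [hF]
        simp only [hi', if_false, Nat.add_sub_cancel_left]
    dsimp only at h
    rw [hsum] at h
    have hk := kernel_abs hβm hγm hβd hγd c1 c2 c3 v (fun i => v (p + i)) dG dH
      (by rw [hpq]; exact hdH) (by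
        rw [← hA0, ← hD0]
        rw [mul_add] at h
        rw [← h, hA0]
        linear_combination (-(G₂ * γ ^ 2 * ∑ i ∈ Finset.range p, C (v i) * X ^ i)) * hC4)
    obtain ⟨k1, k2, k3, k4⟩ := hk
    refine ⟨?_, k3, k4, ?_⟩
    · funext i
      rw [hvi i, Pi.zero_apply]
      by_cases hi : (i : ℕ) < p
      · exact k1 i hi
      · have := k2 ((i : ℕ) - p) (by have := i.2; omega)
        rwa [Nat.add_sub_cancel' (not_lt.1 hi)] at this
    · rw [k3, eval_zero, zero_add] at hdt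
      refine (mul_eq_zero.1 hdt).resolve_left ?_
      rw [hG₁R, derivative_mul, derivative_mul, derivative_sub, derivative_X, derivative_C]
      simp only [eval_add, eval_mul, eval_sub, eval_X, eval_C, sub_self, mul_zero, zero_mul,
        zero_add, add_zero, sub_zero, mul_one]
      exact mul_ne_zero eR eG₂

end

end Pool.Agent.Helper23.RK
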